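import Mathlib

/-!
Let `G` and `K` be the semidirect products of a cyclic group of order `91` by a cyclic group of
order `9`, a generator of the latter acting by `a ↦ a^16`, respectively `a ↦ a^9`.
There is a bijection `f : G → K` and a group word `W(x, y)` such that
`f (W (x, y)) = f x * f y` for all `x, y` in `G` and also
`f⁻¹ (W (x, y)) = f⁻¹ x * f⁻¹ y` for all `x, y` in `K`.
Hence the coordinatewise application of `f` maps the subgroups of `G^n` bijectively onto
the subgroups of `K^n`, and this projectivity maps coordinate subgroups to coordinate subgroups.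
But `G` and `K` are not isomorphic.
-/

set_option autoImplicit false

namespace Pool.Agent.Results.MP_196888_al.DirectPowers

/-- The `i`-th coordinate subgroup `G_i` of the direct power `G^n`: the functions `x` with
`x j = 1` for all `j ≠ i`. -/
def coord (G : Type) [Group G] (n : ℕ) (i : Fin n) : Subgroup (Fin n → G) where
  carrier := {x | ∀ j, j ≠ i → x j = 1}
  one_mem' := fun _ _ => rfl
  mul_mem' := fun {x y} hx hy j hj => by
    rw [Pi.mul_apply, hx j hj, hy j hj, mul_one]
  inv_mem' := fun {x} hx j hj => by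
    rw [Pi.inv_apply, hx j hj, inv_one]

/-- `H` is the internal direct product of its subgroups `L 0, …, L (n-1)`: they are normal,
they generate `H`, and each of them meets the subgroup generated by the others trivially. -/
def IsInternalDirectProduct {H : Type} [Group H] {n : ℕ} (L : Fin n → Subgroup H) : Prop :=
  (∀ i, (L i).Normal) ∧ (⨆ i, L i) = ⊤ ∧ ∀ i, L i ⊓ (⨆ j, ⨆ _ : j ≠ i, L j) = ⊥

/-- the unit by which the generator acts -/
def un : Bool → ZMod 91
  | true => 16
  | false => 9

/-- the character -/
def ch (e : Bool) (q : ZMod 9) : ZMod 91 := un e ^ q.val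

/-- the two groups -/
@[ext]
structure E (e : Bool) where
  /-- component of order `91` -/
  a : ZMod 91
  /-- component of order `9` -/
  b : ZMod 9
deriving DecidableEq

lemma ch_zero (e : Bool) : ch e 0 = 1 := by cases e <;> decide

set_option maxRecDepth 100000 in
lemma ch_add (e : Bool) (q r : ZMod 9) : ch e (q + r) = ch e q * ch e r := by
  revert q r
  cases e <;> decide +kernel

lemma ch_neg_mul (e : Bool) (q : ZMod 9) : ch e (-q) * ch e q = 1 := by
  rw [← ch_add, neg_add_cancel, ch_zero]

namespace E

variable {e : Bool}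

instance : Mul (E e) := ⟨fun x y => ⟨x.a + ch e x.b * y.a, x.b + y.b⟩⟩
instance : One (E e) := ⟨⟨0, 0⟩⟩
instance : Inv (E e) := ⟨fun x => ⟨-(ch e (-x.b) * x.a), -x.b⟩⟩

@[simp] lemma mul_a (x y : E e) : (x * y).a = x.a + ch e x.b * y.a := rfl
@[simp] lemma mul_b (x y : E e) : (x * y).b = x.b + y.b := rfl
@[simp] lemma one_a : (1 : E e).a = 0 := rfl
@[simp] lemma one_b : (1 : E e).b = 0 := rfl
@[simp] lemma inv_a (x : E e) : (x⁻¹).a = -(ch e (-x.b) * x.a) := rfl
@[simp] lemma inv_b (x : E e) : (x⁻¹).b = -x.b := rfl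

instance : Group (E e) :=
  Group.ofLeftAxioms
    (fun x y z => by
      ext
      · simp only [mul_a, mul_b, ch_add]; ring
      · simp only [mul_b]; ring)
    (fun x => by
      ext
      · simp [ch_zero]
      · simp)
    (fun x => by
      ext
      · simp only [mul_a, inv_a, inv_b, one_a]; ring
      · simp)

lemma card (e : Bool) : Nat.card (E e) = 819 := by
  have h : E e ≃ ZMod 91 × ZMod 9 :=
    { toFun := fun x => (x.a, x.b)
      invFun := fun p => ⟨p.1, p.2⟩
      left_inv := fun _ => rfl
      right_inv := fun _ => rfl }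
  rw [Nat.card_congr h, Nat.card_prod, Nat.card_zmod, Nat.card_zmod]

/-- an element of the normal subgroup of order `91` -/
def base (d : ZMod 91) : E e := ⟨d, 0⟩

lemma base_mul (c d : ZMod 91) : (base c : E e) * base d = base (c + d) := by
  ext
  · simp [base, ch_zero]
  · simp [base]

lemma base_mul_right (c : ZMod 91) (x : E e) : base c * x = ⟨c + x.a, x.b⟩ := by
  ext
  · simp [base, ch_zero]
  · simp [base]

lemma base_pow (d : ZMod 91) (k : ℕ) : (base d : E e) ^ k = base (k * d) := by
  induction k with
  | zero => ext <;> simp [base]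
  | succ k ih => rw [pow_succ, ih, base_mul]; congr 1; push_cast; ring

lemma conj_base (g : E e) (d : ZMod 91) : g * base d * g⁻¹ = base (ch e g.b * d) := by
  have h := ch_neg_mul e g.b
  ext
  · simp only [base, mul_a, mul_b, inv_a, add_zero]
    linear_combination (-g.a) * h
  · simp [base]

lemma pow_b (x : E e) (k : ℕ) : (x ^ k).b = k * x.b := by
  induction k with
  | zero => simp
  | succ k ih => rw [pow_succ, mul_b, ih]; push_cast; ring

lemma comm_eq (x y : E e) :
    x * y * x⁻¹ * y⁻¹ = base ((1 - ch e y.b) * x.a - (1 - ch e x.b) * y.a) := by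
  rw [mul_inv_eq_iff_eq_mul, mul_inv_eq_iff_eq_mul, base_mul_right]
  ext
  · simp only [mul_a]; ring
  · simp only [mul_b]; ring

end E

lemma ch_nsmul (e : Bool) (k : ℕ) (q : ZMod 9) : ch e (k * q) = ch e q ^ k := by
  induction k with
  | zero => simp [ch_zero]
  | succ k ih => push_cast; rw [add_mul, one_mul, ch_add, ih, pow_succ]

/-- a conjugate of a power of the commutator of `x` and `y` -/
def tm {G : Type} [Group G] (x y : G) (i j c : ℕ) : G :=
  (x ^ i * y ^ j) * (x * y * x⁻¹ * y⁻¹) ^ c * (x ^ i * y ^ j)⁻¹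

/-- the word -/
def wd {G : Type} [Group G] (x y : G) : G :=
  tm x y 0 0 7 * (tm x y 0 1 49 * (tm x y 0 2 35 * (tm x y 1 0 35 * (tm x y 1 1 42 *
    (tm x y 1 2 49 * (tm x y 2 0 49 * (tm x y 2 1 56 * (tm x y 2 2 42 * (x * y)))))))))

lemma tm_mem {G : Type} [Group G] (U : Subgroup G) {x y : G} (hx : x ∈ U) (hy : y ∈ U)
    (i j c : ℕ) : tm x y i j c ∈ U := by
  have h1 : x ^ i * y ^ j ∈ U := U.mul_mem (U.pow_mem hx _) (U.pow_mem hy _)
  exact U.mul_mem (U.mul_mem h1 (U.pow_mem (U.mul_mem (U.mul_mem (U.mul_mem hx hy)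
    (U.inv_mem hx)) (U.inv_mem hy)) _)) (U.inv_mem h1)

lemma wd_mem {G : Type} [Group G] (U : Subgroup G) {x y : G} (hx : x ∈ U) (hy : y ∈ U) :
    wd x y ∈ U := by
  unfold wd
  iterate 9 refine U.mul_mem (tm_mem U hx hy _ _ _) ?_
  exact U.mul_mem hx hy

lemma wd_apply {G : Type} [Group G] {n : ℕ} (x y : Fin n → G) (i : Fin n) :
    wd x y i = wd (x i) (y i) := rfl

/-- the polynomial -/
def PP (e : Bool) (q r : ZMod 9) : ZMod 91 :=
  7 + 49 * ch e r + 35 * ch e r ^ 2 + 35 * ch e q + 42 * ch e q * ch e r
    + 49 * ch e q * ch e r ^ 2 + 49 * ch e q ^ 2 + 56 * ch e q ^ 2 * ch e r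
    + 42 * ch e q ^ 2 * ch e r ^ 2

lemma tm_eq {e : Bool} (x y : E e) (i j c : ℕ) :
    tm x y i j c = E.base (ch e x.b ^ i * ch e y.b ^ j *
      (c * ((1 - ch e y.b) * x.a - (1 - ch e x.b) * y.a))) := by
  rw [tm, E.comm_eq, E.base_pow, E.conj_base, E.mul_b, E.pow_b, E.pow_b, ch_add, ch_nsmul,
    ch_nsmul]

lemma wd_eq {e : Bool} (x y : E e) :
    wd x y = ⟨PP e x.b y.b * ((1 - ch e y.b) * x.a - (1 - ch e x.b) * y.a) + x.a
      + ch e x.b * y.a, x.b + y.b⟩ := by
  unfold wd
  simp only [tm_eq, E.base_mul_right]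
  ext
  · simp only [E.mul_a, PP]
    push_cast
    ring
  · simp

/-- the scaling factor -/
def tt (e : Bool) (q : ZMod 9) : ZMod 91 :=
  if q.val % 3 = 0 then 1 else if (q.val % 3 = 1) = (e = true) then 43 else 36

set_option maxRecDepth 100000 in
lemma tt_tt (e : Bool) (q : ZMod 9) : tt (!e) q * tt e q = 1 := by
  revert q
  cases e <;> decide +kernel

set_option maxRecDepth 100000 in
lemma tt_neg (e : Bool) (q : ZMod 9) : tt e (-q) * ch e (-q) = ch (!e) (-q) * tt e q := by
  revert q
  cases e <;> decide +kernel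

set_option maxRecDepth 100000 in
lemma key1 (e : Bool) (q r : ZMod 9) :
    tt e (q + r) * (PP e q r * (1 - ch e r) + 1) = tt e q := by
  revert q r
  cases e <;> decide +kernel

set_option maxRecDepth 100000 in
lemma key2 (e : Bool) (q r : ZMod 9) :
    tt e (q + r) * (ch e q - PP e q r * (1 - ch e q)) = ch (!e) q * tt e r := by
  revert q r
  cases e <;> decide +kernel

/-- the bijection -/
def ff (e : Bool) (x : E e) : E (!e) := ⟨tt e x.b * x.a, x.b⟩

lemma ff_one (e : Bool) : ff e 1 = 1 := by
  ext <;> simp [ff]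

lemma ff_wd (e : Bool) (x y : E e) : ff e (wd x y) = ff e x * ff e y := by
  rw [wd_eq]
  ext
  · simp only [ff, E.mul_a]
    linear_combination x.a * key1 e x.b y.b + y.a * key2 e x.b y.b
  · simp [ff]

lemma ff_inv (e : Bool) (x : E e) : ff e x⁻¹ = (ff e x)⁻¹ := by
  ext
  · simp only [ff, E.inv_a, E.inv_b]
    linear_combination (-x.a) * tt_neg e x.b
  · simp [ff]

/-- the inverse bijection -/
def gg : E false → E true := ff false

lemma gg_ff (x : E true) : gg (ff true x) = x := by
  ext
  · have := tt_tt true x.b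
    simp only [gg, ff]
    rw [← mul_assoc]
    simp only [Bool.not_true] at this
    rw [this, one_mul]
  · rfl

lemma ff_gg (x : E false) : ff true (gg x) = x := by
  ext
  · have := tt_tt false x.b
    simp only [gg, ff]
    rw [← mul_assoc]
    simp only [Bool.not_false] at this
    rw [this, one_mul]
  · rfl

lemma ff_true_one : ff true 1 = (1 : E false) := ff_one true
lemma gg_one : gg 1 = (1 : E true) := ff_one false
lemma ff_true_wd (x y : E true) : (ff true (wd x y) : E false) = ff true x * ff true y :=
  ff_wd true x y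
lemma gg_wd (x y : E false) : gg (wd x y) = gg x * gg y := ff_wd false x y
lemma ff_true_inv (x : E true) : (ff true x⁻¹ : E false) = (ff true x)⁻¹ := ff_inv true x
lemma gg_inv (x : E false) : gg x⁻¹ = (gg x)⁻¹ := ff_inv false x

lemma ff_mul (x y : E true) :
    (ff true (x * y) : E false) = wd (ff true x) (ff true y : E false) := by
  have h := gg_wd (ff true x) (ff true y)
  rw [gg_ff, gg_ff] at h
  rw [← h, ff_gg]

lemma gg_mul (x y : E false) : gg (x * y) = wd (gg x) (gg y) := by
  have h := ff_true_wd (gg x) (gg y)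
  rw [ff_gg, ff_gg] at h
  rw [← h, gg_ff]

/-- the projectivity -/
def proj (n : ℕ) : Subgroup (Fin n → E true) ≃o Subgroup (Fin n → E false) where
  toFun U :=
    { carrier := {z | (fun i => gg (z i)) ∈ U}
      one_mem' := by
        have : (fun i => gg ((1 : Fin n → E false) i)) = 1 := by
          funext i; exact gg_one
        rw [Set.mem_ofPred_eq, this]; exact U.one_mem
      mul_mem' := by
        intro x y hx hy
        have : (fun i => gg ((x * y) i)) = wd (fun i => gg (x i)) (fun i => gg (y i)) := by
          funext i; exact gg_mul _ _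
        rw [Set.mem_ofPred_eq, this]; exact wd_mem U hx hy
      inv_mem' := by
        intro x hx
        have : (fun i => gg (x⁻¹ i)) = (fun i => gg (x i))⁻¹ := by
          funext i; exact gg_inv _
        rw [Set.mem_ofPred_eq, this]; exact U.inv_mem hx }
  invFun V :=
    { carrier := {z | (fun i => (ff true (z i) : E false)) ∈ V}
      one_mem' := by
        have : (fun i => (ff true ((1 : Fin n → E true) i) : E false)) = 1 := by
          funext i; exact ff_true_one
        rw [Set.mem_ofPred_eq, this]; exact V.one_mem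
      mul_mem' := by
        intro x y hx hy
        have : (fun i => (ff true ((x * y) i) : E false)) =
            wd (fun i => (ff true (x i) : E false)) (fun i => (ff true (y i) : E false)) := by
          funext i; exact ff_mul _ _
        rw [Set.mem_ofPred_eq, this]; exact wd_mem V hx hy
      inv_mem' := by
        intro x hx
        have : (fun i => (ff true (x⁻¹ i) : E false)) = (fun i => (ff true (x i) : E false))⁻¹ := by
          funext i; exact ff_true_inv _
        rw [Set.mem_ofPred_eq, this]; exact V.inv_mem hx }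
  left_inv U := by
    ext x
    change (fun i => gg (ff true (x i))) ∈ U ↔ x ∈ U
    simp only [gg_ff]
  right_inv V := by
    ext x
    change (fun i => (ff true (gg (x i)) : E false)) ∈ V ↔ x ∈ V
    simp only [ff_gg]
  map_rel_iff' := by
    intro U V
    constructor
    · intro h x hx
      have h1 : (fun i => gg (ff true (x i))) ∈ U := by simpa only [gg_ff] using hx
      have h2 := h (show (fun i => (ff true (x i) : E false)) ∈ _ from h1)
      change (fun i => gg (ff true (x i))) ∈ V at h2
      simpa only [gg_ff] using h2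
    · intro h x hx
      exact h hx

lemma proj_coord (n : ℕ) (i : Fin n) : proj n (coord (E true) n i) = coord (E false) n i := by
  ext x
  change (∀ j, j ≠ i → gg (x j) = 1) ↔ (∀ j, j ≠ i → x j = 1)
  refine forall_congr' fun j => forall_congr' fun _ => ?_
  constructor
  · intro h
    rw [← ff_gg (x j), h]
    exact ff_true_one
  · intro h
    rw [h]
    exact gg_one

/-- the coordinate subgroup is isomorphic to the group itself -/
def coordEquiv (G : Type) [Group G] (n : ℕ) (i : Fin n) : coord G n i ≃* G where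
  toFun x := x.1 i
  invFun g := ⟨Pi.mulSingle i g, fun j hj => by simp [Pi.mulSingle_eq_of_ne hj]⟩
  left_inv x := by
    apply Subtype.ext
    funext j
    change (Pi.mulSingle i (x.1 i) : Fin n → G) j = x.1 j
    by_cases hj : j = i
    · subst hj; simp
    · rw [Pi.mulSingle_eq_of_ne hj, x.2 j hj]
  right_inv g := by simp
  map_mul' x y := rfl

lemma coord_internal (G : Type) [Group G] (n : ℕ) : IsInternalDirectProduct (coord G n) := by
  refine ⟨fun i => ⟨fun x hx g j hj => ?_⟩, ?_, fun i => ?_⟩
  · rw [Pi.mul_apply, Pi.mul_apply, hx j hj, mul_one, Pi.inv_apply, mul_inv_cancel]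
  · rw [eq_top_iff]
    intro x _
    refine Subgroup.pi_mem_of_mulSingle_mem x fun i => ?_
    refine (le_iSup (fun i => coord G n i) i) ?_
    intro j hj
    rw [Pi.mulSingle_eq_of_ne hj]
  · rw [eq_bot_iff]
    rintro x ⟨hx1, hx2⟩
    have h : (⨆ j, ⨆ _ : j ≠ i, coord G n j) ≤ (Pi.evalMonoidHom (fun _ : Fin n => G) i).ker := by
      refine iSup_le fun j => iSup_le fun hj => ?_
      intro y hy
      exact hy i (Ne.symm hj)
    rw [Subgroup.mem_bot]
    funext j
    by_cases hj : j = i
    · subst hj
      exact h hx2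
    · exact hx1 j hj

lemma not_iso : IsEmpty (E true ≃* E false) := by
  refine ⟨fun φ => ?_⟩
  let α : E true := E.base 1
  let β : E true := ⟨0, 1⟩
  have hα : ∀ k : ℕ, (φ α) ^ k = 1 → (k : ZMod 91) = 0 := by
    intro k hk
    rw [← map_pow, map_eq_one_iff φ φ.injective, E.base_pow] at hk
    have := congrArg E.a hk
    simpa [E.base] using this
  have h91 : α ^ 91 = 1 := by
    rw [E.base_pow]
    ext
    · simp only [E.base, E.one_a, mul_one]; decide
    · rfl
  have hb : (φ α).b = 0 := by
    have h1 : (φ α) ^ 91 = 1 := by rw [← map_pow, h91, map_one]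
    have h2 := congrArg E.b h1
    rw [E.pow_b, E.one_b] at h2
    have h3 : ((91 : ℕ) : ZMod 9) = 1 := by decide
    rw [h3, one_mul] at h2
    exact h2
  have hrel : β * α * β⁻¹ = α ^ 16 := by
    rw [E.conj_base, E.base_pow]
    congr 1
  have hbase : φ α = E.base (φ α).a := by
    ext
    · rfl
    · exact hb
  have h1 := congrArg φ hrel
  rw [map_mul, map_mul, map_inv, map_pow, hbase, E.conj_base, E.base_pow] at h1
  have h2 : ch false (φ β).b * (φ α).a = ((16 : ℕ) : ZMod 91) * (φ α).a := congrArg E.a h1
  have h3 : ∀ q : ZMod 9, ch false q - 16 ≠ 0 := by decide +kernel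
  apply h3 (φ β).b
  have h4 := hα (ch false (φ β).b - 16).val (by
    rw [hbase, E.base_pow, ZMod.natCast_val, ZMod.cast_id', id]
    have : (ch false (φ β).b - 16) * (φ α).a = 0 := by
      rw [sub_mul, h2]; push_cast; ring
    rw [this]; rfl)
  rwa [ZMod.natCast_val, ZMod.cast_id', id] at h4

/-- The whole group is the only self-centralizing normal Hall subgroup of the first group. -/
lemma no_hall (N : Subgroup (E true)) (hN : N.Normal) (hc : (Nat.card N).Coprime N.index)
    (hz : Subgroup.centralizer (N : Set (E true)) ≤ N) : N = ⊤ := by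
  -- the central element of order three
  have hcen : (⟨0, 3⟩ : E true) ∈ N := by
    apply hz
    rw [Subgroup.mem_centralizer_iff]
    intro g _
    ext
    · have : ch true 3 = 1 := by decide +kernel
      simp [this]
    · simp [add_comm]
  have h3 : 3 ∣ Nat.card N := by
    have h1 : orderOf (⟨⟨0, 3⟩, hcen⟩ : N) = 3 := by
      apply orderOf_eq_prime
      · apply Subtype.ext
        have h2 : (⟨0, 3⟩ : E true) ^ 3 = 1 := by decide +kernel
        exact h2
      · intro h
        have h2 : (3 : ZMod 9) = 0 := congrArg (fun x : N => (x : E true).b) h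
        revert h2
        decide
    rw [← h1]
    exact orderOf_dvd_natCard _
  have h9 : Nat.Coprime N.index 9 := by
    have h4 : Nat.Coprime 3 N.index := Nat.Coprime.coprime_dvd_left h3 hc
    exact (Nat.Coprime.pow_left 2 h4).symm
  have hβ : (⟨0, 1⟩ : E true) ∈ N := by
    have h5 : (⟨0, 1⟩ : E true) ^ N.index ∈ N := N.pow_index_mem _
    have h6 : (⟨0, 1⟩ : E true) ^ 9 = 1 := by decide +kernel
    have h7 : ((⟨0, 1⟩ : E true) ^ N.index) ^ (N.index.gcdA 9) = ⟨0, 1⟩ := by
      have h8 := Nat.gcd_eq_gcd_ab N.index 9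
      rw [h9.gcd_eq_one] at h8
      have h10 : ((N.index : ℤ)) * N.index.gcdA 9 = 1 - 9 * N.index.gcdB 9 := by
        push_cast at h8
        linarith
      rw [← zpow_natCast, ← zpow_mul, h10, zpow_sub, zpow_mul, zpow_one]
      have h11 : (⟨0, 1⟩ : E true) ^ (9 : ℤ) = 1 := by exact_mod_cast h6
      rw [h11, one_zpow, inv_one, mul_one]
    rw [← h7]
    exact N.zpow_mem h5 _
  have hα : (E.base 1 : E true) ∈ N := by
    have h12 : (E.base 1 * ⟨0, 1⟩ * (E.base 1)⁻¹ * (⟨0, 1⟩ : E true)⁻¹) ∈ N :=
      N.mul_mem (hN.conj_mem _ hβ _) (N.inv_mem hβ)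
    rw [E.comm_eq] at h12
    have h13 := N.pow_mem h12 6
    rw [E.base_pow] at h13
    have h14 : ((6 : ℕ) : ZMod 91) * ((1 - ch true (⟨0, 1⟩ : E true).b) * (E.base 1 : E true).a -
        (1 - ch true (E.base 1 : E true).b) * (⟨0, 1⟩ : E true).a) = 1 := by decide +kernel
    rwa [h14] at h13
  rw [eq_top_iff]
  rintro ⟨a, b⟩ _
  have h15 : (⟨a, b⟩ : E true) = E.base 1 ^ a.val * ⟨0, 1⟩ ^ b.val := by
    rw [E.base_pow, E.base_mul_right]
    have h16 : ∀ b : ZMod 9, ((⟨0, 1⟩ : E true) ^ b.val) = ⟨0, b⟩ := by decide +kernel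
    rw [h16]
    ext
    · simp
    · rfl
  rw [h15]
  exact N.mul_mem (N.pow_mem hα _) (N.pow_mem hβ _)

/-- **Negative answer.** There is a finite group `G` (of order `819`) such that for every `n ≥ 2`
there are a group `H` and a projectivity `φ` from `G^n` to `H` such that `H` is the internal
direct product of the images of the coordinate subgroups of `G^n` and such that no coordinate
subgroup of `G^n` is isomorphic to its image. Moreover, the only self-centralizing normal Hall
subgroup of `G` is `G` itself. -/
theorem result :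
    ∃ (G : Type) (_ : Group G), Nat.card G = 819 ∧
      (∀ N : Subgroup G, N.Normal → (Nat.card N).Coprime N.index →
        Subgroup.centralizer (N : Set G) ≤ N → N = ⊤) ∧
      ∀ n : ℕ, 2 ≤ n → ∃ (H : Type) (_ : Group H) (φ : Subgroup (Fin n → G) ≃o Subgroup H),
        IsInternalDirectProduct (fun i => φ (coord G n i)) ∧
        ∀ i, IsEmpty (φ (coord G n i) ≃* coord G n i) := by
  refine ⟨E true, inferInstance, E.card true, no_hall, fun n _ =>
    ⟨Fin n → E false, inferInstance, proj n, ?_, fun i => ⟨fun ψ => ?_⟩⟩⟩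
  · have : (fun i => proj n (coord (E true) n i)) = coord (E false) n := by
      funext i; exact proj_coord n i
    rw [this]
    exact coord_internal _ n
  · rw [proj_coord] at ψ
    exact not_iso.false ((coordEquiv (E true) n i).symm.trans
      (ψ.symm.trans (coordEquiv (E false) n i)))

end Pool.Agent.Results.MP_196888_al.DirectPowers
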